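import Pool.Agent.H63N.FJ.Mat

/-!
# Farrell–Jones groups: unitriangular kernels over partially ordered sets

`C` is any class of groups with the closure properties `ClosedE C`: it contains `ℤ` and is closed
under subgroups, finite products, free products, overgroups of finite index, directed colimits and
satisfies the extension criterion with virtually cyclic subgroups; moreover `C` contains the solvable
groups. All this is known for the class of the groups which satisfy the fibered Farrell–Jones conjecture
in A-theory with finite wreath products.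

Let `Λ` be a partially ordered set, of any size and with intervals of any size, and `R` a ring. A
finitary unitriangular matrix has the entries `1` on the diagonal, only finitely many nonzero entries
off the diagonal, and these are above the diagonal. The group of these matrices is locally nilpotent but
in general neither solvable nor residually solvable; for a linear order it is a McLain group.

(1) Let `N` be a normal subgroup of `G` which is isomorphic to a group of finitary unitriangular
matrices, such that every `g` in `G` acts on the supports of the elements of `N`, up to an inner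
automorphism of `N`, as an automorphism of `Λ`. If `G / N` is in `C`, then `G` is in `C`.

(2) In particular, all semidirect products of the full group of the finitary unitriangular matrices with
a group `Q` in `C` which acts through automorphisms of the partially ordered set (and possibly changes
the entries, for instance by automorphisms of `R`) are in `C`.
-/

set_option autoImplicit false

namespace Pool.Agent.Results.MP_59dd5b_al.PosetKernels

open Pool.Agent.Y110.FJ (ClosedE)
open Pool.Agent

variable {Λ R : Type} [Ring R]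

theorem ring_id {A : Type} [Ring A] (a b : A) :
    a * b - 1 = (a - 1) * (b - 1) + ((a - 1) + (b - 1)) := by noncomm_ring

/-- the entry of the matrix of an endomorphism of the free module with the basis `Λ` -/
noncomputable def entry (a : Module.End R (Λ →₀ R)) (x y : Λ) : R := a (Finsupp.single y 1) x

/-- finitary and (upper) unitriangular -/
def Unitriangular [PartialOrder Λ] (u : (Module.End R (Λ →₀ R))ˣ) : Prop :=
  (∀ x, entry (u : Module.End R (Λ →₀ R)) x x = 1) ∧
    (∀ x y, x ≠ y → entry (u : Module.End R (Λ →₀ R)) x y ≠ 0 → x < y) ∧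
    {p : Λ × Λ | p.1 ≠ p.2 ∧ entry (u : Module.End R (Λ →₀ R)) p.1 p.2 ≠ 0}.Finite

/-- the support function -/
noncomputable def sp (R Λ : Type) [Ring R] : H63N.FJ.Sp (Module.End R (Λ →₀ R)) Λ where
  supp a := {p | entry a p.1 p.2 ≠ 0}
  zero := by rintro p hp; exact hp rfl
  add := by
    intro a b p hp
    by_contra h
    have h1 : entry a p.1 p.2 = 0 := by
      by_contra h1; exact h (Or.inl h1)
    have h2 : entry b p.1 p.2 = 0 := by
      by_contra h1; exact h (Or.inr h1)
    apply hp
    show (a + b) (Finsupp.single p.2 1) p.1 = 0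
    rw [LinearMap.add_apply, Finsupp.add_apply]
    show entry a p.1 p.2 + entry b p.1 p.2 = 0
    rw [h1, h2, add_zero]
  neg := by
    intro a p hp h
    apply hp
    show (-a) (Finsupp.single p.2 1) p.1 = 0
    rw [LinearMap.neg_apply, Finsupp.neg_apply]
    exact neg_eq_zero.2 h
  mul := by
    classical
    rintro a b ⟨x, z⟩ hp
    have h1 : (a * b) (Finsupp.single z 1) =
        (b (Finsupp.single z 1)).sum (fun y r => r • a (Finsupp.single y 1)) := by
      rw [Module.End.mul_apply]
      conv_lhs => rw [← Finsupp.sum_single (b (Finsupp.single z 1))]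
      rw [map_finsuppSum]
      refine Finsupp.sum_congr (fun y _ => ?_)
      rw [← map_smul, Finsupp.smul_single, smul_eq_mul, mul_one]
    have h2 : ((a * b) (Finsupp.single z 1)) x ≠ 0 := hp
    rw [h1, Finsupp.sum, Finsupp.finsetSum_apply] at h2
    obtain ⟨y, hy, hy2⟩ := Finset.exists_ne_zero_of_sum_ne_zero h2
    refine ⟨y, ?_, Finsupp.mem_support_iff.1 hy⟩
    intro h3
    apply hy2
    rw [Finsupp.smul_apply]
    have h4 : (a (Finsupp.single y 1)) x = 0 := h3
    rw [h4, smul_zero]
  eq_zero := by
    intro a h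
    refine Finsupp.lhom_ext (fun y r => ?_)
    have h1 : a (Finsupp.single y 1) = 0 := by
      ext x
      by_contra h2
      exact h (show (x, y) ∈ {p : Λ × Λ | entry a p.1 p.2 ≠ 0} from h2)
    rw [show (Finsupp.single y r : Λ →₀ R) = r • Finsupp.single y 1 by
      rw [Finsupp.smul_single, smul_eq_mul, mul_one], map_smul, h1, smul_zero]
    rfl

theorem mem_supp {a : Module.End R (Λ →₀ R)} (h : ∀ x, entry a x x = 1) (p : Λ × Λ) :
    p ∈ (sp R Λ).supp (a - 1) ↔ p.1 ≠ p.2 ∧ entry a p.1 p.2 ≠ 0 := by
  classical
  have h1 : ∀ x y, entry a x y = entry (a - 1) x y + (if x = y then 1 else 0) := by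
    intro x y
    have h2 : (a - 1) + 1 = a := sub_add_cancel a 1
    have h3 : entry ((a - 1) + 1) x y = entry (a - 1) x y + entry 1 x y := by
      show ((a - 1) + 1) (Finsupp.single y 1) x = _
      rw [LinearMap.add_apply, Finsupp.add_apply]
      rfl
    rw [h2] at h3
    rw [h3]
    congr 1
    show (Finsupp.single y (1 : R)) x = _
    rw [Finsupp.single_apply]
    simp only [eq_comm]
  show entry (a - 1) p.1 p.2 ≠ 0 ↔ _
  by_cases hp : p.1 = p.2
  · have h2 := h1 p.1 p.2
    rw [if_pos hp, ← hp, h p.1] at h2
    have h3 : entry (a - 1) p.1 p.1 = 0 := by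
      have h4 : entry (a - 1) p.1 p.1 + 1 = 0 + 1 := by rw [← h2, zero_add]
      exact add_right_cancel h4
    rw [← hp]
    simp [h3]
  · have h2 := h1 p.1 p.2
    rw [if_neg hp, add_zero] at h2
    rw [h2]
    simp [hp]

theorem unitri_iff [PartialOrder Λ] (u : (Module.End R (Λ →₀ R))ˣ) (h : Unitriangular u) :
    H63N.FJ.Unitri (sp R Λ) u := by
  have h1 : (sp R Λ).supp ((u : Module.End R (Λ →₀ R)) - 1) =
      {p : Λ × Λ | p.1 ≠ p.2 ∧ entry (u : Module.End R (Λ →₀ R)) p.1 p.2 ≠ 0} := by
    ext p
    exact mem_supp h.1 p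
  refine ⟨by rw [h1]; exact h.2.2, ?_⟩
  intro p hp
  rw [h1] at hp
  exact h.2.1 p.1 p.2 hp.1 hp.2

/-- The group of all automorphisms `u` of the free module with the basis `Λ` such that `u` and `u⁻¹`
are finitary and unitriangular. -/
def UT (Λ R : Type) [Ring R] [PartialOrder Λ] : Subgroup (Module.End R (Λ →₀ R))ˣ where
  carrier := {u | Unitriangular u ∧ Unitriangular u⁻¹}
  one_mem' := by
    classical
    have h1 : ∀ x y : Λ, entry (1 : Module.End R (Λ →₀ R)) x y = if x = y then 1 else 0 := by
      intro x y
      show (Finsupp.single y (1 : R)) x = _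
      rw [Finsupp.single_apply]
      simp only [eq_comm]
    have h2 : Unitriangular (1 : (Module.End R (Λ →₀ R))ˣ) := by
      refine ⟨fun x => ?_, fun x y hxy h => ?_, ?_⟩
      · rw [Units.val_one, h1, if_pos rfl]
      · rw [Units.val_one, h1, if_neg hxy] at h
        exact absurd rfl h
      · convert Set.finite_empty
        ext p
        simp only [Units.val_one, h1, Set.mem_ofPred_eq, Set.mem_empty_iff_false, iff_false, not_and,
          not_not]
        intro h
        rw [if_neg h]
    exact ⟨h2, by rw [inv_one]; exact h2⟩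
  mul_mem' := by
    classical
    have key : ∀ u v : (Module.End R (Λ →₀ R))ˣ, Unitriangular u → Unitriangular v →
        Unitriangular (u * v) := by
      intro u v hu hv
      have hu' := unitri_iff u hu
      have hv' := unitri_iff v hv
      have e1 : ((u * v : (Module.End R (Λ →₀ R))ˣ) : Module.End R (Λ →₀ R)) - 1 =
          ((u : Module.End R (Λ →₀ R)) - 1) * ((v : Module.End R (Λ →₀ R)) - 1) +
            (((u : Module.End R (Λ →₀ R)) - 1) + ((v : Module.End R (Λ →₀ R)) - 1)) := by
        rw [Units.val_mul]
        exact ring_id (A := Module.End R (Λ →₀ R)) _ _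
      have e2 : (sp R Λ).supp (((u * v : (Module.End R (Λ →₀ R))ˣ) : Module.End R (Λ →₀ R)) - 1) ⊆
          H63N.FJ.Pos.cmp ((sp R Λ).supp ((u : Module.End R (Λ →₀ R)) - 1))
            ((sp R Λ).supp ((v : Module.End R (Λ →₀ R)) - 1)) ∪
          ((sp R Λ).supp ((u : Module.End R (Λ →₀ R)) - 1) ∪
            (sp R Λ).supp ((v : Module.End R (Λ →₀ R)) - 1)) := by
        rw [e1]
        exact ((sp R Λ).add _ _).trans (Set.union_subset_union ((sp R Λ).mul _ _)
          ((sp R Λ).add _ _))
      have e3 : ∀ p ∈ (sp R Λ).supp (((u * v : (Module.End R (Λ →₀ R))ˣ) :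
          Module.End R (Λ →₀ R)) - 1), p.1 < p.2 := by
        intro p hp
        rcases e2 hp with ⟨y, h1, h2⟩ | h1 | h1
        · exact (hu'.2 _ h1).trans (hv'.2 _ h2)
        · exact hu'.2 _ h1
        · exact hv'.2 _ h1
      have e4 : ((sp R Λ).supp (((u * v : (Module.End R (Λ →₀ R))ˣ) :
          Module.End R (Λ →₀ R)) - 1)).Finite := by
        refine Set.Finite.subset (Set.Finite.union ?_ (hu'.1.union hv'.1)) e2
        refine ((hu'.1.image Prod.fst).prod (hv'.1.image Prod.snd)).subset ?_
        rintro p ⟨y, h1, h2⟩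
        exact ⟨⟨_, h1, rfl⟩, ⟨_, h2, rfl⟩⟩
      have e5 : ∀ x y, entry ((u * v : (Module.End R (Λ →₀ R))ˣ) : Module.End R (Λ →₀ R)) x y =
          entry ((((u * v : (Module.End R (Λ →₀ R))ˣ) : Module.End R (Λ →₀ R))) - 1) x y +
            (if x = y then 1 else 0) := by
        intro x y
        generalize ((u * v : (Module.End R (Λ →₀ R))ˣ) : Module.End R (Λ →₀ R)) = a
        have h2 : (a - 1) + 1 = a := sub_add_cancel a 1
        have h3 : entry ((a - 1) + 1) x y = entry (a - 1) x y + entry 1 x y := by
          show ((a - 1) + 1) (Finsupp.single y 1) x = _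
          rw [LinearMap.add_apply, Finsupp.add_apply]
          rfl
        rw [h2] at h3
        rw [h3]
        congr 1
        show (Finsupp.single y (1 : R)) x = _
        rw [Finsupp.single_apply]
        simp only [eq_comm]
      have e6 : ∀ x, entry ((u * v : (Module.End R (Λ →₀ R))ˣ) : Module.End R (Λ →₀ R)) x x = 1 := by
        intro x
        rw [e5, if_pos rfl]
        have h1 : entry ((((u * v : (Module.End R (Λ →₀ R))ˣ) : Module.End R (Λ →₀ R))) - 1) x x
            = 0 := by
          by_contra h1
          exact lt_irrefl _ (e3 (x, x) h1)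
        rw [h1, zero_add]
      have e7 := mem_supp e6
      refine ⟨e6, ?_, ?_⟩
      · intro x y hxy h
        exact e3 (x, y) ((e7 (x, y)).2 ⟨hxy, h⟩)
      · refine e4.subset ?_
        intro p hp
        exact (e7 p).2 hp
    rintro u v ⟨h1, h2⟩ ⟨h3, h4⟩
    exact ⟨key u v h1 h3, by rw [mul_inv_rev]; exact key _ _ h4 h2⟩
  inv_mem' := by
    rintro u ⟨h1, h2⟩
    exact ⟨h2, by rw [inv_inv]; exact h1⟩

/-- Let `C` be a class of groups with the closure properties `ClosedE C` which contains the solvable
groups. (1) Let `N` be normal in `G`, `G / N` in `C`, and `θ` an injective homomorphism from `N` to the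
finitary unitriangular matrices over `Λ` with entries in `R`; for each `g` in `G` let there be an `n` in
`N` and an automorphism `s` of `Λ` such that the support of `(n g) m (n g)⁻¹` is the image under `s` of
the support of `m`, for all `m` in `N`. Then `G` is in `C`. (2) Let `Q` be a group in `C` which acts on
the group `UT` of all finitary unitriangular matrices such that each `q` acts on the supports as an
automorphism of `Λ`. Then the semidirect product is in `C`. -/
theorem result (C : ∀ (G : Type) [Group G], Prop) (hC : ClosedE C)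
    (hS : ∀ (G : Type) [Group G], Group.IsSolvable G → C G)
    (Λ R : Type) [PartialOrder Λ] [Ring R] :
    (∀ (G : Type) [Group G] (N : Subgroup G) [N.Normal]
      (θ : ↥N →* (Module.End R (Λ →₀ R))ˣ), Function.Injective θ → (∀ n, Unitriangular (θ n)) →
      (∀ g : G, ∃ n ∈ N, ∃ s : Λ ≃o Λ, ∀ m m' : ↥N, (m' : G) = n * g * m * (n * g)⁻¹ →
        ∀ x y, x ≠ y → (entry (θ m' : Module.End R (Λ →₀ R)) (s x) (s y) ≠ 0 ↔
          entry (θ m : Module.End R (Λ →₀ R)) x y ≠ 0)) →
      C (G ⧸ N) → C G) ∧
    (∀ (Q : Type) [Group Q] (φ : Q →* MulAut ↥(UT Λ R)),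
      (∀ q : Q, ∃ s : Λ ≃o Λ, ∀ (u : ↥(UT Λ R)) (x y : Λ), x ≠ y →
        (entry ((φ q u : (Module.End R (Λ →₀ R))ˣ) : Module.End R (Λ →₀ R)) (s x) (s y) ≠ 0 ↔
          entry ((u : (Module.End R (Λ →₀ R))ˣ) : Module.End R (Λ →₀ R)) x y ≠ 0)) →
      C Q → C (↥(UT Λ R) ⋊[φ] Q)) := by
  have part1 : ∀ (G : Type) [Group G] (N : Subgroup G) [N.Normal]
      (θ : ↥N →* (Module.End R (Λ →₀ R))ˣ), Function.Injective θ → (∀ n, Unitriangular (θ n)) →
      (∀ g : G, ∃ n ∈ N, ∃ s : Λ ≃o Λ, ∀ m m' : ↥N, (m' : G) = n * g * m * (n * g)⁻¹ →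
        ∀ x y, x ≠ y → (entry (θ m' : Module.End R (Λ →₀ R)) (s x) (s y) ≠ 0 ↔
          entry (θ m : Module.End R (Λ →₀ R)) x y ≠ 0)) →
      C (G ⧸ N) → C G := by
    intro G _ N _ θ hθ hu hg hQ
    refine H63N.FJ.unitri_mem (sp R Λ) hC hS θ hθ (fun n => unitri_iff _ (hu n)) ?_ hQ
    intro g
    obtain ⟨n, hn, s, h⟩ := hg g
    refine ⟨n, hn, s, fun m m' hm x y => ?_⟩
    rw [mem_supp (hu m').1, mem_supp (hu m).1]
    show (s x ≠ s y ∧ _) ↔ (x ≠ y ∧ _)
    constructor
    · rintro ⟨h1, h2⟩
      have h3 : x ≠ y := fun h3 => h1 (congrArg s h3)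
      exact ⟨h3, (h m m' hm x y h3).1 h2⟩
    · rintro ⟨h1, h2⟩
      exact ⟨fun h3 => h1 (s.injective h3), (h m m' hm x y h1).2 h2⟩
  refine ⟨part1, ?_⟩
  intro Q _ φ hφ hQ
  have hker : (SemidirectProduct.rightHom : (↥(UT Λ R) ⋊[φ] Q) →* Q).ker =
      (SemidirectProduct.inl : ↥(UT Λ R) →* (↥(UT Λ R) ⋊[φ] Q)).range :=
    SemidirectProduct.range_inl_eq_ker_rightHom.symm
  let N : Subgroup (↥(UT Λ R) ⋊[φ] Q) := (SemidirectProduct.rightHom).ker
  have hNn : N.Normal := MonoidHom.normal_ker _
  have hmem : ∀ z : ↥N, (z : ↥(UT Λ R) ⋊[φ] Q) = SemidirectProduct.inl z.1.left := by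
    intro z
    refine SemidirectProduct.ext ?_ ?_
    · rw [SemidirectProduct.left_inl]
    · rw [SemidirectProduct.right_inl]
      exact z.2
  let θ : ↥N →* (Module.End R (Λ →₀ R))ˣ :=
    { toFun := fun z => (z.1.left : (Module.End R (Λ →₀ R))ˣ)
      map_one' := by rfl
      map_mul' := by
        intro a b
        have h1 : (a.1 * b.1).left = a.1.left * b.1.left := by
          rw [SemidirectProduct.mul_left]
          have h2 : a.1.right = 1 := a.2
          rw [h2, map_one]
          rfl
        show (((a.1 * b.1).left : ↥(UT Λ R)) : (Module.End R (Λ →₀ R))ˣ) = _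
        rw [h1]
        rfl }
  refine part1 (↥(UT Λ R) ⋊[φ] Q) N θ ?_ ?_ ?_ ?_
  · intro a b hab
    apply Subtype.ext
    rw [hmem a, hmem b]
    congr 1
    exact Subtype.ext hab
  · intro z
    exact z.1.left.2.1
  · intro g
    obtain ⟨s, hs⟩ := hφ g.right
    refine ⟨SemidirectProduct.inl g.left⁻¹, ?_, s, ?_⟩
    · show SemidirectProduct.rightHom _ = 1
      rw [SemidirectProduct.rightHom_inl]
    · intro m m' hm x y hxy
      have h1 : (SemidirectProduct.inl g.left⁻¹ : ↥(UT Λ R) ⋊[φ] Q) * g =
          SemidirectProduct.inr g.right := by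
        refine SemidirectProduct.ext ?_ ?_
        · rw [SemidirectProduct.mul_left, SemidirectProduct.left_inl, SemidirectProduct.right_inl,
            map_one, SemidirectProduct.left_inr]
          show g.left⁻¹ * g.left = 1
          exact inv_mul_cancel _
        · rw [SemidirectProduct.mul_right, SemidirectProduct.right_inl, one_mul,
            SemidirectProduct.right_inr]
      rw [h1, hmem m, hmem m', ← map_inv, ← SemidirectProduct.inl_aut] at hm
      have h2 := SemidirectProduct.inl_injective hm
      have h3 : (θ m' : (Module.End R (Λ →₀ R))ˣ) = (φ g.right m.1.left : ↥(UT Λ R)) :=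
        congrArg Subtype.val h2
      have h4 : (θ m : (Module.End R (Λ →₀ R))ˣ) = (m.1.left : ↥(UT Λ R)) := rfl
      rw [h3, h4]
      exact hs m.1.left x y hxy
  · exact hC.base.of_injective _ _ (QuotientGroup.kerLift
      (SemidirectProduct.rightHom : (↥(UT Λ R) ⋊[φ] Q) →* Q))
      (QuotientGroup.kerLift_injective _) hQ

end Pool.Agent.Results.MP_59dd5b_al.PosetKernels
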